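import Pool.Agent.TH684.LT.Thm

/-!
# If `P ≠ NP`, no `NP`-hard set is decided by one threshold gate

Polynomial time is Mathlib's `Turing.TM2ComputableInPolyTime`, for functions on bit strings.

The model (the class of sets many-one reducible to `LT₁`): a polynomial-time algorithm computes an
integer vector `f (x)` from the input `x`; one threshold gate decides whether `x ∈ A`, by the
inequality `∑ w_j f (x)_j > θ`. The weights and the threshold are arbitrary real numbers which may
depend on the length in any way (nonuniform). The algorithm may use `O(log n)` bits of advice.

Theorem. If some `NP`-hard set is decided in this model then `P = NP`. The same holds for one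
inequality `p (f (x)) > 0` with an arbitrary real polynomial `p` of bounded degree (depending on the
length) in the coordinates; this includes systems of polynomial equations, decision lists, and the
Boolean combinations of a bounded number of polynomial equations.

History. Agrawal and Arvind (Geometric sets of low information content, 1996) claimed that `P = NP`
if SAT is many-one reducible to `LT₁`; Buhrman, Fortnow, Hitchcock and Loff (Learning reductions to
sparse sets, 2013) found an error in the proof, and proved that the polynomial hierarchy collapses to
`P^NP`. For weights of polynomially bounded sum (and sparse oracles) see
`MP_634427_lc.CensusWidth`.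

Proof. By the exclusion theorem (`MP_8a52c3_lc.OneExcludedVector`,
`Pool.Agent.TH684.EX.p_eq_np_of_exc`) it is enough to exclude in polynomial time, for given
`m = poly (n)` strings, one row of a Hadamard matrix as the vector of the answers. Let
`a₁, …, a_m` in `ℤ ^ d` be the vectors, `m > 16 d²`. By Forster's theorem some row of the Hadamard
matrix is not the sign vector of a linear functional on these points. To find it: solvable systems of
linear inequalities have solutions with small integer entries, so the points can be moved to general
position (`a_t` is replaced by `B a_t + (1, t, t², …)`, `B` large). Start with equal scales `s_t`, and
as long as the leverage `s_t² a_tᵀ Q⁻¹ a_t`, `Q = 1 + ∑ s_t² a_t a_tᵀ`, of some `t` is more than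
`4 d / m`, divide `s_t` by two. Each step decreases the potential `(det Q) ^ m / ∏ s_t ^ (2 d)` by a
factor of at least four, and it is at least one, so the process stops after polynomially many steps.
Then the vectors `g_l = ∑ ± s_t a_t` for the rows `l` of the Hadamard matrix have
`g_lᵀ Q⁻¹ g_l ≤ d` on average, but this quantity is at least `m / (16 d)` if the row `l` is a sign
vector of a linear functional. All this is expressed by determinants of integer matrices.
-/

set_option autoImplicit false

namespace Pool.Agent.Results.MP_8a52c3_lc.ArbitraryWeightGate

open Pool.Agent.NPC Pool.Agent.TH684.LT

/-- **One threshold gate.** The following are equivalent: `P = NP`; some `NP`-hard set is decided by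
one threshold gate with polynomial-time computable integer inputs and arbitrary real weights for every
length; some `NP`-hard set is decided by one polynomial threshold gate of bounded degree; all sets in
`NP` are decided by one threshold gate. -/
theorem result : List.TFAE
    [∀ L : Set (List Bool), InNP L → InP L,
      ∃ A : Set (List Bool), NPHard A ∧ OneThresholdGate A,
      ∃ (A : Set (List Bool)) (k : ℕ), NPHard A ∧ OnePolynomialGate k A,
      ∀ A : Set (List Bool), InNP A → OneThresholdGate A] :=
  gate_tfae

end Pool.Agent.Results.MP_8a52c3_lc.ArbitraryWeightGate
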