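import Pool.Agent.TH661.LPY.Fin8

set_option autoImplicit false

/-!
# Mixed-binary conic programs do not refute random k-CNF formulas

The definitions used in the statement are in `Pool/Agent/TH661/LPX/ProgDef.lean` and
`Pool/Agent/TH661/LPY/Wsat.lean`:

* `CNF n`: formulas in conjunctive normal form in `n` variables (lists of clauses);
* `Exactly k F`: every clause of `F` consists of `k` literals in different variables;
* `satCount F x`: the number of clauses of `F` which are true at `x`;
* `wsat F w x`: the total weight of the clauses of `F` which are true at `x`, if the `i`-th clause
  has the weight `w i`;
* `aff a z`: the value at `z` of the affine function with coefficients `a.1` and constant `a.2`;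
* `ConicProgram b r D`: a mixed-binary conic program, that is, a set of linear equations, `b`
  affine functions which must be zero or one, and `r` affine maps whose values must be in given
  closed convex cones in `D`-dimensional space; for `D = 1` these are the mixed-binary linear
  programs with `r` linear inequalities;
* `P.Feasible z`: the point `z` satisfies the constraints of the program `P`.

The programs `P i` and the feasible points `y i x` of the assignments are chosen before the
formula, so the program which is used for a formula may be one of the `Q` programs which depends
on the formula. For most of the formulas `F` with `n` variables and `M` clauses (`M` a large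
multiple of `n`), every assignment satisfies only a fraction of about `1 - 1 / 2 ^ k` of the
clauses, but each of the programs has a feasible point `z` at which all clauses look true: for all
weights of the clauses, an affine function which expresses the total weight of the true clauses at
the points `y i x` takes at `z` about the total weight of all clauses. For equal weights, this
says that the value of the program is about `M`. For single clauses, it says that the program
remains feasible even if the clauses of `F` are added as constraints (up to `4 ^ (- t)`).

Idea of the proof. A clause is implied by a parity constraint on its `k` variables. Let `Y i` be
the sign of the `i`-th one of these parity constraints, and let `DL` be the product of the factors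
`1 + Y i`, truncated to the terms of degree at most `L`. It is not nonnegative, but for each of
the `Q * r` cones, with high probability `E (v * DL) ≥ - 2 ^ (- 9 t - 3)` for all functions `v` with
values in the unit interval in the `D`-dimensional space of functions given by the cone. To see
this, take a design (a convex combination of members of the family, in the sense of Kiefer and
Wolfowitz, optimal up to a factor four) for the densities `g * v / E (g * v)`, where `g` is the
product of the factors `1 + Y i` for the constraints deleted so far. By the hypercontractive
inequality, the total weighted mass of its squared Fourier coefficients at the parities of small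
sets of constraints is small on average over the choice of the variables (random hypergraphs
expand), so it is unlikely that the mass remains large after all deletions of few constraints.
Otherwise the rest of the sum is a polynomial in the remaining random signs with a small second
moment, hence it is small with high probability, again by the hypercontractive inequality,
simultaneously for the whole family. The correlation of `DL` with the event that a given clause
is false is a signed sum of Fourier coefficients of order `L` only, hence tiny with high
probability. Finally, restrict `DL` to most of the points of a largest class of the binary
variables, and add a small multiple of the uniform measure on the class.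
-/

namespace Pool.Agent.Results.MP_8a52c3_lc.ConicFormulations

open Pool.Agent.TH661.LPX

theorem result : ∀ (ε η δ : ℝ) (B : ℕ), 0 < ε → 0 < η → η ≤ 1 → 0 < δ → ∃ C : ℕ,
    ∀ n k M Q b r D t : ℕ, 3 ≤ k → 1 ≤ D → 2 ^ k ≤ n → n ≤ 2 ^ t →
    (n : ℝ) ^ (1 + ε) * D * t * (C * t) ^ k ≤ n ^ k →
    2 ^ (k + 1) * n ≤ η ^ 2 * M → M ≤ B * 2 ^ k * n → Q * 2 ^ b * (r * D + 1) ≤ 2 ^ t →
    ∀ (P : Fin Q → ConicProgram b r D) (y : ∀ i, (Fin n → Bool) → Fin (P i).d → ℝ),
      (∀ i x, (P i).Feasible (y i x)) →
      (1 - δ) * ({F : CNF n | Exactly k F ∧ F.length = M}.ncard : ℝ) ≤
        ({F : CNF n | Exactly k F ∧ F.length = M ∧
          (∀ x, (satCount F x : ℝ) ≤ (1 - (1 - η) / 2 ^ k) * M) ∧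
          ∀ i, ∃ z, (P i).Feasible z ∧ ∀ (w : ℕ → ℝ) (a : (Fin (P i).d → ℝ) × ℝ),
            (∀ x, aff a (y i x) = wsat F w x) →
              |aff a z - ∑ j ∈ Finset.range M, w j|
                ≤ (∑ j ∈ Finset.range M, |w j|) / 4 ^ t}.ncard : ℝ) :=
  fun ε η δ B hε hη0 hη1 hδ => Pool.Agent.TH661.LPY.random_cnf_family ε η δ B hε hη0 hη1 hδ

end Pool.Agent.Results.MP_8a52c3_lc.ConicFormulations
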