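import Pool.Agent.TH689.CXFinal
import Pool.Agent.TH689.CXUpper

/-!
# Convex programs with binary variables need exhaustive search for satisfiability

The definitions used in the statement:

* `Asg n`, `Clause n`, `FalseAt C x` (`Pool/Agent/H538R2/SBDefs.lean`): the assignments of `n`
  Boolean variables, the clauses (finite sets of literals), and the relation that `C` is false
  at `x`. A CNF formula is a finite set of clauses.
* `LX.falsified F x` (`Pool/Agent/TH689/LXDefs.lean`): the number of clauses of `F` which are false
  at the assignment `x`.
* `ConvexRelaxation n k s r D` (`Pool/Agent/TH689/CXDefs.lean`): the schemes of mixed-integer convex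
  programming relaxations for the formulas with `n` variables, with `k` binary variables, `s`
  convex constraints of dimension `D` which are common to all formulas and `r` such constraints for
  every clause. A constraint says that the value of an affine map to `ℝ ^ D` lies in an arbitrary
  convex set. There are any number of real variables and linear equations. Every assignment is
  represented by a vector which satisfies the common constraints, the constraints of the clauses
  which it makes true, and whose binary variables are `0` or `1`.
* `P.Refutes F δ` (same file): the relaxation `P` shows that `F` is not satisfiable, with an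
  error `δ`.
-/

set_option autoImplicit false

namespace Pool.Agent.Results.MP_8a52c3_lc.ConvexPrograms

open Pool.Agent.H538R2.SB Pool.Agent.TH689 Pool.Agent.TH689.CX

/-- Let `ε > 0`. There is a `c ≥ 1` such that for all `n ≥ c`, all `m` with `n ^ c ≤ m` and
`m ^ c ≤ 2 ^ n` and all `D` with `D ^ c ≤ m`: for every scheme `P` of mixed-integer convex
programming relaxations for the formulas with `n` variables, with `k` binary variables and
constraints of dimension `D`, there is a formula `F` with at most `m` clauses of width at most
`log₂ m`, which is far from satisfiable (every assignment falsifies at least `n / (c log₂ m)` of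
its clauses), such that `2 ^ k * (s + r + 1) ≥ 2 ^ ((1 - ε) n)` if `P` refutes `F` with the
error `2 ^ (-n / c)`.

Conversely, for all `k` and `l` there is a scheme of relaxations for the formulas with `k + l`
variables, with `k` binary variables, `2 ^ l` linear inequalities and one more for every clause,
which refutes every unsatisfiable formula `F` with every error `δ < 1 / |F|`. -/
theorem result :
    (∀ ε : ℝ, 0 < ε → ∃ c : ℕ, 1 ≤ c ∧ ∀ n m D k s r : ℕ, c ≤ n → n ^ c ≤ m → m ^ c ≤ 2 ^ n →
      D ^ c ≤ m → ∀ P : ConvexRelaxation n k s r D,
      ∃ F : Finset (Clause n), F.card ≤ m ∧ (∀ C ∈ F, 2 ^ C.card ≤ m) ∧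
        (∀ x, n ≤ c * Nat.log 2 m * LX.falsified F x) ∧
        (P.Refutes F ((2 : ℝ) ^ (-((n : ℝ) / c))) →
          (2 : ℝ) ^ ((1 - ε) * n) ≤ 2 ^ k * (s + r + 1))) ∧
    ∀ k l : ℕ, ∃ P : ConvexRelaxation (k + l) k (2 ^ l) 1 1,
      ∀ F : Finset (Clause (k + l)), (∀ x, ∃ C ∈ F, FalseAt C x) →
        ∀ δ : ℝ, 0 ≤ δ → F.card * δ < 1 → P.Refutes F δ :=
  ⟨fun ε hε => cx_main ε hε, cx_upper⟩

end Pool.Agent.Results.MP_8a52c3_lc.ConvexPrograms
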