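import Pool.Agent.TH658.Xg.BigD
import Pool.Agent.TH658.Xg.GapBrute
import Pool.Agent.TH658.Xg.Rand

set_option autoImplicit false

/-!
# Symmetric programs of linear algebra do not approximate the clique number within `n^(1 - ε)`

If P is not NP then no polynomial time algorithm approximates the clique number of graphs with `n`
vertices within a factor `n^(1 - ε)` (Håstad, Zuckerman). We prove this unconditionally, with a
lower bound `2^(n^δ)`, for randomized symmetric nonuniform programs whose steps are arbitrary
functions of the isomorphism class of the data of linear algebra over fields of characteristic not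
two.

The symmetric group `Sₙ` acts on the graphs with the vertices `0, ..., n - 1`. A symmetric program
is a sequence of gates. The value of a gate is an arbitrary function of the isomorphism class of a
vector space of dimension `r` (over some field of characteristic not two, which may depend on the
gate) with endomorphisms and sesquilinear forms, on which a subgroup `H` of `Sₙ` acts by a linear
representation (`ClassGate`, cost `r^2 [Sₙ : H]`), or an arbitrary function of the traces of the
products of `r × r` matrices on which each permutation in `H` acts by some conjugation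
(`TraceGate`, cost `r^4 [Sₙ : H]`). The entries of the matrices are linear combinations of
arbitrary functions of induced subgraphs with at most `d` vertices and of arbitrary functions of
the value of an earlier gate at the graph with permuted vertices. A gate thus stands for the
`[Sₙ : H]` gates which one gets from it by permuting the vertices; the cost is the number of the
entries of their matrices.

For instance, take a circuit with inputs the edges and with gates which compute arbitrary functions
of the number of their true inputs, or of the rank over a field of characteristic not two of a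
matrix of inputs, and assume that it is mapped to itself by all permutations of the vertices. It is
a symmetric program; its cost is the number of its gates of the first kind plus the number of the
entries of the matrices of the gates of the second kind.

Let `α > 0` and `0 < β < 1`. We show that for some `c > 0` and all large `n` the following holds.
(1) There are two distributions on graphs with `n` vertices, one on graphs with a clique of
`n^(1 - α)` vertices, one on graphs without a clique of `n^β` vertices, such that the distributions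
of the value of a symmetric program of cost `S` with `d ≤ c n^β / log n` differ by at most
`S / 2^(c n^β)`.
(2) So randomized symmetric programs with `d ≤ c n^β / log n` which distinguish the graphs with a
clique of `n^(1 - α)` vertices from the graphs without a clique of `n^β` vertices with error
`1 / 3` have expected cost at least `2^(c n^β)`.
(3) The bound is optimal up to a factor `log n` in the exponent, even for the decision without
errors: exhaustive search for a clique of `q` vertices is a symmetric program with two gates, with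
`d = 2`, of cost at most `n.choose q + 1`, which is `2^O(n^β log n)` for `q = ⌈n^β⌉`.
-/

namespace Pool.Agent.Results.MP_8a52c3_lc.SymmetricInapproximability

open Pool.Agent.TH658.Xg

/-- The sum over the gates of the square (for class gates; for trace gates the fourth power) of the
dimension, times the index of the group. -/
noncomputable def cost {n s : ℕ} (H : Fin s → Subgroup (Equiv.Perm (Fin n))) (r p : Fin s → ℕ) :
    ℕ := ∑ j, r j ^ p j * (H j).index

/-- `v` is a symmetric program which reads induced subgraphs with at most `d` vertices. -/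
def IsGraphProgram {n s : ℕ} {V : Type} (d : ℕ) (v : Fin s → SimpleGraph (Fin n) → V)
    (H : Fin s → Subgroup (Equiv.Perm (Fin n))) (r p : Fin s → ℕ) : Prop :=
  IsProgram (Equiv.Perm (Fin n)) (LocalGraph n d) v H r p

/-- The values of the programs have nearly the same distribution on the families `F`, `G`. -/
def Fooled {n : ℕ} (d : ℕ) (B : ℝ) {Ω : Type} (F G : Ω → SimpleGraph (Fin n)) : Prop :=
  ∀ (s : ℕ) (V : Type) (v : Fin s → SimpleGraph (Fin n) → V)
    (H : Fin s → Subgroup (Equiv.Perm (Fin n))) (r p : Fin s → ℕ), IsGraphProgram d v H r p →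
    ∀ (j₀ : Fin s) (T : Set V),
    |(Nat.card {ω // v j₀ (F ω) ∈ T} : ℝ) - Nat.card {ω // v j₀ (G ω) ∈ T}| * B ≤
      cost H r p * Nat.card Ω

/-- The randomized program `v` (`Coins` is the set of the outcomes of the coin tosses) distinguishes
with error `1 / 3` the graphs with a clique of `k` vertices from the graphs without a clique of `q`
vertices: it accepts if the value of the gate `j₀` is in `T`. -/
def Distinguishes {n : ℕ} {Coins : Type} [Fintype Coins] {V : Type} {s : Coins → ℕ} (k q : ℕ)
    (v : (ρ : Coins) → Fin (s ρ) → SimpleGraph (Fin n) → V) (j₀ : (ρ : Coins) → Fin (s ρ))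
    (T : Set V) : Prop :=
  ∀ G : SimpleGraph (Fin n),
    (HasClique k G → 2 / 3 * (Nat.card Coins : ℝ) ≤ Nat.card {ρ // v ρ (j₀ ρ) G ∈ T}) ∧
    (¬ HasClique q G → (Nat.card {ρ // v ρ (j₀ ρ) G ∈ T} : ℝ) ≤ 1 / 3 * Nat.card Coins)

/-- The expected cost of the randomized symmetric programs which distinguish the graphs with `n`
vertices and a clique of `k` vertices from those without a clique of `q` vertices is at least
`B`. -/
def CostAtLeast (k q n d : ℕ) (B : ℝ) : Prop :=
  ∀ (Coins : Type) [Fintype Coins] (V : Type) (s : Coins → ℕ)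
    (v : (ρ : Coins) → Fin (s ρ) → SimpleGraph (Fin n) → V)
    (H : (ρ : Coins) → Fin (s ρ) → Subgroup (Equiv.Perm (Fin n)))
    (r p : (ρ : Coins) → Fin (s ρ) → ℕ) (j₀ : (ρ : Coins) → Fin (s ρ)) (T : Set V),
    (∀ ρ, IsGraphProgram d (v ρ) (H ρ) (r ρ) (p ρ)) → Distinguishes k q v j₀ T →
    B * Nat.card Coins ≤ ∑ ρ, (cost (H ρ) (r ρ) (p ρ) : ℝ)

/-- Symmetric programs of linear algebra do not approximate the clique number within nearly linear
factors, neither in the worst case nor on average. -/
theorem lower (α β : ℝ) (hα : 0 < α) (hβ : 0 < β) (hβ1 : β < 1) :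
    ∃ c : ℝ, 0 < c ∧ ∃ n₁ : ℕ, ∀ n k q d : ℕ, n₁ ≤ n → (k : ℝ) ≤ (n : ℝ) ^ (1 - α) →
      (n : ℝ) ^ β ≤ q → (d : ℝ) ≤ c * (n : ℝ) ^ β / Real.log n →
      (∃ (Ω : Type) (_ : Fintype Ω) (_ : Nonempty Ω) (F G : Ω → SimpleGraph (Fin n)),
        (∀ ω, HasClique k (F ω) ∧ ¬ HasClique q (G ω)) ∧
        Fooled d ((2 : ℝ) ^ (c * (n : ℝ) ^ β)) F G) ∧
      CostAtLeast k q n d ((2 : ℝ) ^ (c * (n : ℝ) ^ β)) := by
  obtain ⟨c, hc, n₁, hn₁⟩ := near_linear hα hβ hβ1
  refine ⟨c, hc, n₁, fun n k q d hn hk hq hd => ?_⟩
  obtain ⟨Ω, i1, i2, F, G, h1, h2⟩ := hn₁ n k q d hn hk hq hd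
  have h0 : (0 : ℝ) < (2 : ℝ) ^ (c * (n : ℝ) ^ β) := Real.rpow_pos_of_pos (by norm_num) _
  refine ⟨⟨Ω, i1, i2, F, G, h1, ?_⟩, ?_⟩
  · intro s V v H r p hp j₀ T
    refine le_trans (mul_le_mul_of_nonneg_left ?_ (abs_nonneg _)) (h2 s V v H r p hp j₀ T)
    linarith
  · intro Coins _ V s v H r p j₀ T hp hdec
    have h3 := randomized_core F G (fun ρ x => v ρ (j₀ ρ) x ∈ T)
      (fun ρ => (cost (H ρ) (r ρ) (p ρ) : ℝ)) (3 * (2 : ℝ) ^ (c * (n : ℝ) ^ β)) (by positivity)
      (fun ρ => h2 (s ρ) V (v ρ) (H ρ) (r ρ) (p ρ) (hp ρ) (j₀ ρ) T)
      (fun ω => (hdec (F ω)).1 (h1 ω).1) (fun ω => (hdec (G ω)).2 (h1 ω).2)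
    refine le_trans (le_of_eq ?_) h3
    ring

/-- The lower bound and the upper bound. -/
theorem result :
    (∀ α β : ℝ, 0 < α → 0 < β → β < 1 →
      ∃ c : ℝ, 0 < c ∧ ∃ n₁ : ℕ, ∀ n k q d : ℕ, n₁ ≤ n → (k : ℝ) ≤ (n : ℝ) ^ (1 - α) →
        (n : ℝ) ^ β ≤ q → (d : ℝ) ≤ c * (n : ℝ) ^ β / Real.log n →
        (∃ (Ω : Type) (_ : Fintype Ω) (_ : Nonempty Ω) (F G : Ω → SimpleGraph (Fin n)),
          (∀ ω, HasClique k (F ω) ∧ ¬ HasClique q (G ω)) ∧
          Fooled d ((2 : ℝ) ^ (c * (n : ℝ) ^ β)) F G) ∧
        CostAtLeast k q n d ((2 : ℝ) ^ (c * (n : ℝ) ^ β))) ∧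
    (∀ q n d : ℕ, q ≤ n → 2 ≤ d →
      ∃ (v : Fin 2 → SimpleGraph (Fin n) → Prop) (H : Fin 2 → Subgroup (Equiv.Perm (Fin n))),
        IsGraphProgram d v H (fun _ => 1) (fun _ => 2) ∧ (∀ G, v 1 G ↔ HasClique q G) ∧
        cost H (fun _ => 1) (fun _ => 2) ≤ n.choose q + 1) :=
  ⟨lower, fun _ _ d hk hd => clique_exhaustive hk d hd⟩

end Pool.Agent.Results.MP_8a52c3_lc.SymmetricInapproximability
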